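import Pool.Agent.R761.STP.Greedy

set_option autoImplicit false

/-!
# A semi-translation plane with a ternary field which is not linear over its Baer subplane

Let `θ` be a formal symbol. The affine points are the pairs `(g.1 + i.1 θ, g.2 + i.2 θ)` with
`g, i : ℚ × ℚ`, the Baer subplane is the rational plane `i = 0`, and its translations act by
`g ↦ g + g₀`. The lines of rational or infinite slope `n` are given by
`phi n i = γ`, `phi n g + cc n i = β`, where `phi n (x, y) = y - n x` (and `phi ∞ (x, y) = x`)
and `cc` is an arbitrary perturbation; we take it to be zero except for the slope `2` and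
`i = (1, 3)`. The remaining lines are the graphs `g = h + k w i` where `k : ℕ → ℚ × ℚ → ℚ × ℚ` is
generic; such a function is constructed in `Pool.Agent.R761.STP.Greedy` by a step by step
procedure.
-/

noncomputable section
open scoped Classical

namespace Pool.Agent.Results.MP_da03c4_co.NonLinear

/-- no three of the four points `a, b, c, d` are on a line -/
def IsQuadrangle {P L : Type} (I : P → L → Prop) (a b c d : P) : Prop :=
  (∀ l, ¬ (I a l ∧ I b l ∧ I c l)) ∧ (∀ l, ¬ (I a l ∧ I b l ∧ I d l)) ∧
  (∀ l, ¬ (I a l ∧ I c l ∧ I d l)) ∧ (∀ l, ¬ (I b l ∧ I c l ∧ I d l))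

/-- The incidence relation `I` between points and lines is a projective plane. -/
structure IsProjectivePlane {P L : Type} (I : P → L → Prop) : Prop where
  join : ∀ p q, p ≠ q → ∃! l, I p l ∧ I q l
  meet : ∀ l m, l ≠ m → ∃! p, I p l ∧ I p m
  quadrangle : ∃ a b c d, IsQuadrangle I a b c d

/-- the induced incidence relation on a set of points and a set of lines -/
def restrict {P L : Type} (I : P → L → Prop) (SP : Set P) (SL : Set L) : SP → SL → Prop :=
  fun p l => I p.1 l.1

/-- The points `SP` and the lines `SL` form a Baer subplane. -/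
structure IsBaerSubplane {P L : Type} (I : P → L → Prop) (SP : Set P) (SL : Set L) : Prop where
  /-- they form a subplane -/
  plane : IsProjectivePlane (restrict I SP SL)
  /-- every point is on a line of the subplane -/
  baer_point : ∀ p, ∃ l ∈ SL, I p l
  /-- every line contains a point of the subplane -/
  baer_line : ∀ l, ∃ p ∈ SP, I p l

/-- `(α, β)` is a translation of the affine plane with line at infinity `W`, that is a collineation
which fixes all points of `W` and all lines through some point `c` of `W` (an elation with axis `W`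
or the identity). -/
structure IsTranslation {P L : Type} (I : P → L → Prop) (W : L) (α : P ≃ P) (β : L ≃ L) : Prop where
  collineation : ∀ p l, I (α p) (β l) ↔ I p l
  axis : ∀ p, I p W → α p = p
  center : ∃ c, I c W ∧ ∀ l, I c l → β l = l

/-- The translations are transitive on the affine points. -/
def IsTranslationPlane {P L : Type} (I : P → L → Prop) (W : L) : Prop :=
  ∀ p q, ¬ I p W → ¬ I q W → ∃ α β, IsTranslation I W α β ∧ α p = q

/-- The affine plane with line at infinity `W` is a semi-translation plane with the Baer subplane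
`(SP, SL)`. -/
structure IsSemiTranslationPlane {P L : Type} (I : P → L → Prop) (W : L) (SP : Set P) (SL : Set L)
    (hW : W ∈ SL) : Prop where
  baer : IsBaerSubplane I SP SL
  translation : IsTranslationPlane (restrict I SP SL) ⟨W, hW⟩
  /-- every translation of the subplane is induced by a translation of the plane -/
  induced : ∀ (α : SP ≃ SP) (β : SL ≃ SL), IsTranslation (restrict I SP SL) ⟨W, hW⟩ α β →
    ∃ α' β', IsTranslation I W α' β' ∧ (∀ p : SP, α' p = α p) ∧ (∀ l : SL, β' l = β l)

section coordinates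

variable {P L : Type} [Nonempty P] [Nonempty L] (I : P → L → Prop) (W : L) (o e u v : P)

/-- the line through `p` and `q` -/
def joinLine (p q : P) : L := Classical.epsilon (fun l => I p l ∧ I q l)

/-- the common point of `l` and `m` -/
def meetPoint (l m : L) : P := Classical.epsilon (fun p => I p l ∧ I p m)

/-- The coordinate domain: the affine points of the line `oe`. The point `x` of `oe` has the
coordinates `(x, x)`; zero is `o` and one is `e`. -/
def Dom (x : P) : Prop := I x (joinLine I o e) ∧ ¬ I x W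

/-- The point with the coordinates `(x, y)`: it is on the vertical line `x v` and on the horizontal
line `y u`. -/
def pt (x y : P) : P := meetPoint I (joinLine I x v) (joinLine I y u)

/-- The point at infinity of the lines of slope `a`: it is on `W` and on the line through `(0, 0)`
and `(1, a)`. -/
def slopePt (a : P) : P := meetPoint I (joinLine I o (pt I u v e a)) W

/-- Hall's ternary operation `x · a ∘ b`. The line `y = x · a ∘ b` is the line through `(0, b)` of
slope `a`; its intersection with the vertical line through `x` is the point `(x, x · a ∘ b)`, and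
the horizontal line through this point meets `oe` in `x · a ∘ b`. -/
def tern (x a b : P) : P :=
  meetPoint I (joinLine I o e) (joinLine I u
    (meetPoint I (joinLine I x v) (joinLine I (slopePt I W o e u v a) (pt I u v o b))))

/-- addition `a + b = a · 1 ∘ b` -/
def add (a b : P) : P := tern I W o e u v a e b

/-- multiplication `a b = a · b ∘ 0` -/
def mul (a b : P) : P := tern I W o e u v a b o

/-- The ternary field is linear over the subplane with point set `SP`:
`x · s ∘ y = x s + y` for all `x, y` and all `s` in the subplane. -/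
def QLinear (SP : Set P) : Prop :=
  ∀ x y s, Dom I W o e x → Dom I W o e y → Dom I W o e s → s ∈ SP →
    tern I W o e u v x s y = add I W o e u v (mul I W o e u v x s) y

end coordinates

open Pool.Agent.R761.STP

/-- the points of the example -/
inductive Pt : Type
  | aff (g i : ℚ × ℚ)
  | inf (n : Option ℚ)
  | far (w : ℕ)

/-- the lines of the example -/
inductive Ln : Type
  | W
  | net (n : Option ℚ) (β γ : ℚ)
  | tr (w : ℕ) (h : ℚ × ℚ)

/-- the incidence relation of the example -/
def Inc (k : ℕ → ℚ × ℚ → ℚ × ℚ) : Pt → Ln → Prop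
  | .aff g i, .net n β γ => phi n g + cc n i = β ∧ phi n i = γ
  | .aff g i, .tr w h => g = h + k w i
  | .aff _ _, .W => False
  | .inf _, .W => True
  | .inf n, .net m _ _ => n = m
  | .inf _, .tr _ _ => False
  | .far _, .W => True
  | .far _, .net _ _ _ => False
  | .far w, .tr w' _ => w = w'

section inc
variable (k : ℕ → ℚ × ℚ → ℚ × ℚ)

@[simp] lemma inc_aff_net (g i : ℚ × ℚ) (n : Option ℚ) (β γ : ℚ) :
    Inc k (.aff g i) (.net n β γ) ↔ phi n g + cc n i = β ∧ phi n i = γ := Iff.rfl
@[simp] lemma inc_aff_tr (g i : ℚ × ℚ) (w : ℕ) (h : ℚ × ℚ) :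
    Inc k (.aff g i) (.tr w h) ↔ g = h + k w i := Iff.rfl
@[simp] lemma inc_aff_W (g i : ℚ × ℚ) : Inc k (.aff g i) .W ↔ False := Iff.rfl
@[simp] lemma inc_inf_W (n : Option ℚ) : Inc k (.inf n) .W ↔ True := Iff.rfl
@[simp] lemma inc_inf_net (n m : Option ℚ) (β γ : ℚ) :
    Inc k (.inf n) (.net m β γ) ↔ n = m := Iff.rfl
@[simp] lemma inc_inf_tr (n : Option ℚ) (w : ℕ) (h : ℚ × ℚ) :
    Inc k (.inf n) (.tr w h) ↔ False := Iff.rfl
@[simp] lemma inc_far_W (w : ℕ) : Inc k (.far w) .W ↔ True := Iff.rfl
@[simp] lemma inc_far_net (w : ℕ) (m : Option ℚ) (β γ : ℚ) :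
    Inc k (.far w) (.net m β γ) ↔ False := Iff.rfl
@[simp] lemma inc_far_tr (w w' : ℕ) (h : ℚ × ℚ) :
    Inc k (.far w) (.tr w' h) ↔ w = w' := Iff.rfl

end inc

/-- the properties of a generic function -/
structure Gen (k : ℕ → ℚ × ℚ → ℚ × ℚ) : Prop where
  zero : ∀ w, k w 0 = 0
  A : ∀ w w', w ≠ w' → Function.Bijective (fun i => k w i - k w' i)
  B : ∀ w n, Function.Bijective (fun i => (phi n i, phi n (k w i) + cc n i))
  C : ∀ i i', i ≠ i' → ∀ g, phi (dir (i - i')) g + cc (dir (i - i')) i - cc (dir (i - i')) i' ≠ 0 →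
      ∃ w, k w i - k w i' = g

variable {k : ℕ → ℚ × ℚ → ℚ × ℚ}

lemma phi_inj' {n m : Option ℚ} (h : n ≠ m) {i j : ℚ × ℚ} (h1 : phi n i = phi n j)
    (h2 : phi m i = phi m j) : i = j := by
  rw [← sub_eq_zero]
  apply phi_inj h
  · rw [phi_sub, h1, sub_self]
  · rw [phi_sub, h2, sub_self]

/-- a net line and a transversal have at most one common point -/
lemma uniq_net_tr (H : Gen k) {p q : Pt} {n : Option ℚ} {β γ : ℚ} {w : ℕ} {h : ℚ × ℚ}
    (h1 : Inc k p (.net n β γ)) (h2 : Inc k q (.net n β γ)) (h3 : Inc k p (.tr w h))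
    (h4 : Inc k q (.tr w h)) : p = q := by
  cases p with
  | inf n' => simp at h3
  | far w' => simp at h1
  | aff g i =>
    cases q with
    | inf n' => simp at h4
    | far w' => simp at h2
    | aff g' i' =>
      simp only [inc_aff_net, inc_aff_tr] at h1 h2 h3 h4
      have hi : i = i' := by
        apply (H.B w n).1
        simp only [Prod.mk.injEq]
        refine ⟨h1.2.trans h2.2.symm, ?_⟩
        have e1 := h1.1
        have e2 := h2.1
        rw [h3, phi_add] at e1
        rw [h4, phi_add] at e2
        linarith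
      subst hi
      rw [h3, h4]

lemma uniq (H : Gen k) {p q : Pt} {l m : Ln} (hpq : p ≠ q) (h1 : Inc k p l) (h2 : Inc k q l)
    (h3 : Inc k p m) (h4 : Inc k q m) : l = m := by
  by_contra hlm
  cases l with
  | W =>
    cases m with
    | W => exact hlm rfl
    | net n β γ =>
      cases p with
      | aff g i => simp at h1
      | far w => simp at h3
      | inf n1 =>
        cases q with
        | aff g i => simp at h2
        | far w => simp at h4
        | inf n2 =>
          simp at h3 h4
          exact hpq (by rw [h3, h4])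
    | tr w h =>
      cases p with
      | aff g i => simp at h1
      | inf n1 => simp at h3
      | far w1 =>
        cases q with
        | aff g i => simp at h2
        | inf n1 => simp at h4
        | far w2 =>
          simp at h3 h4
          exact hpq (by rw [h3, h4])
  | net n β γ =>
    cases m with
    | W =>
      cases p with
      | aff g i => simp at h3
      | far w => simp at h1
      | inf n1 =>
        cases q with
        | aff g i => simp at h4
        | far w => simp at h2
        | inf n2 =>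
          simp at h1 h2
          exact hpq (by rw [h1, h2])
    | net n' β' γ' =>
      by_cases hn : n = n'
      · subst hn
        cases p with
        | far w => simp at h1
        | aff g i =>
          simp only [inc_aff_net] at h1 h3
          apply hlm
          rw [← h1.1, ← h1.2, ← h3.1, ← h3.2]
        | inf n1 =>
          cases q with
          | far w => simp at h2
          | aff g i =>
            simp only [inc_aff_net] at h2 h4
            apply hlm
            rw [← h2.1, ← h2.2, ← h4.1, ← h4.2]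
          | inf n2 =>
            simp at h1 h2
            exact hpq (by rw [h1, h2])
      · cases p with
        | far w => simp at h1
        | inf n1 =>
          simp at h1 h3
          exact hn (h1.symm.trans h3)
        | aff g i =>
          cases q with
          | far w => simp at h2
          | inf n1 =>
            simp at h2 h4
            exact hn (h2.symm.trans h4)
          | aff g' i' =>
            simp only [inc_aff_net] at h1 h2 h3 h4
            have hi : i = i' := phi_inj' hn (h1.2.trans h2.2.symm) (h3.2.trans h4.2.symm)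
            subst hi
            have hg : g = g' := phi_inj' hn (by linarith [h1.1, h2.1]) (by linarith [h3.1, h4.1])
            subst hg
            exact hpq rfl
    | tr w h => exact hpq (uniq_net_tr H h1 h2 h3 h4)
  | tr w h =>
    cases m with
    | W =>
      cases p with
      | aff g i => simp at h3
      | inf n1 => simp at h1
      | far w1 =>
        cases q with
        | aff g i => simp at h4
        | inf n1 => simp at h2
        | far w2 =>
          simp at h1 h2
          exact hpq (by rw [h1, h2])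
    | net n β γ => exact hpq (uniq_net_tr H h3 h4 h1 h2)
    | tr w' h' =>
      by_cases hw : w = w'
      · subst hw
        have key : ∀ g i, Inc k (.aff g i) (.tr w h) → Inc k (.aff g i) (.tr w h') → False := by
          intro g i ha hb
          simp only [inc_aff_tr] at ha hb
          apply hlm
          rw [ha] at hb
          rw [add_right_cancel hb]
        cases p with
        | inf n1 => simp at h1
        | aff g i => exact key g i h1 h3
        | far w1 =>
          cases q with
          | inf n1 => simp at h2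
          | aff g i => exact key g i h2 h4
          | far w2 =>
            simp at h1 h2
            exact hpq (by rw [h1, h2])
      · cases p with
        | inf n1 => simp at h1
        | far w1 =>
          simp at h1 h3
          exact hw (h1.symm.trans h3)
        | aff g i =>
          cases q with
          | inf n1 => simp at h2
          | far w1 =>
            simp at h2 h4
            exact hw (h2.symm.trans h4)
          | aff g' i' =>
            simp only [inc_aff_tr] at h1 h2 h3 h4
            have hi : i = i' := by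
              apply (H.A w w' hw).1
              simp only
              have e1 : k w i - k w' i = h' - h := by
                rw [sub_eq_sub_iff_add_eq_add, add_comm, ← h1, h3]
              have e2 : k w i' - k w' i' = h' - h := by
                rw [sub_eq_sub_iff_add_eq_add, add_comm, ← h2, h4]
              rw [e1, e2]
            subst hi
            exact hpq (by rw [h1, h2])

lemma exJoin (H : Gen k) {p q : Pt} (hpq : p ≠ q) : ∃ l, Inc k p l ∧ Inc k q l := by
  cases p with
  | inf n =>
    cases q with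
    | inf m => exact ⟨.W, by simp, by simp⟩
    | far w => exact ⟨.W, by simp, by simp⟩
    | aff g i => exact ⟨.net n (phi n g + cc n i) (phi n i), by simp, by simp⟩
  | far w =>
    cases q with
    | inf m => exact ⟨.W, by simp, by simp⟩
    | far w => exact ⟨.W, by simp, by simp⟩
    | aff g i => exact ⟨.tr w (g - k w i), by simp, by simp⟩
  | aff g i =>
    cases q with
    | inf n => exact ⟨.net n (phi n g + cc n i) (phi n i), by simp, by simp⟩
    | far w => exact ⟨.tr w (g - k w i), by simp, by simp⟩
    | aff g' i' =>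
      by_cases hi : i = i'
      · subst hi
        refine ⟨.net (dir (g - g')) (phi (dir (g - g')) g + cc (dir (g - g')) i)
          (phi (dir (g - g')) i), by simp, ?_⟩
        have := phi_dir (g - g')
        rw [phi_sub] at this
        simp only [inc_aff_net, and_true]
        linarith
      · have hd := phi_dir (i - i')
        rw [phi_sub] at hd
        by_cases hc : phi (dir (i - i')) (g - g') + cc (dir (i - i')) i - cc (dir (i - i')) i' = 0
        · refine ⟨.net (dir (i - i')) (phi (dir (i - i')) g + cc (dir (i - i')) i)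
            (phi (dir (i - i')) i), by simp, ?_⟩
          rw [phi_sub] at hc
          simp only [inc_aff_net]
          constructor <;> linarith
        · obtain ⟨w, hw⟩ := H.C i i' hi (g - g') hc
          refine ⟨.tr w (g - k w i), by simp, ?_⟩
          simp only [inc_aff_tr]
          have : g' = g - (k w i - k w i') := by rw [hw]; abel
          rw [this]; abel

lemma exMeet (H : Gen k) {l m : Ln} (hlm : l ≠ m) : ∃ p, Inc k p l ∧ Inc k p m := by
  have nettr : ∀ n β γ w h, ∃ p, Inc k p (.net n β γ) ∧ Inc k p (.tr w h) := by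
    intro n β γ w h
    obtain ⟨i, hi⟩ := (H.B w n).2 (γ, β - phi n h)
    simp only [Prod.mk.injEq] at hi
    refine ⟨.aff (h + k w i) i, ?_, by simp⟩
    simp only [inc_aff_net]
    refine ⟨?_, hi.1⟩
    rw [phi_add]
    linarith [hi.2]
  cases l with
  | W =>
    cases m with
    | W => exact absurd rfl hlm
    | net n β γ => exact ⟨.inf n, by simp, by simp⟩
    | tr w h => exact ⟨.far w, by simp, by simp⟩
  | net n β γ =>
    cases m with
    | W => exact ⟨.inf n, by simp, by simp⟩
    | net n' β' γ' =>
      by_cases hn : n = n'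
      · exact ⟨.inf n, by simp, by simp [hn]⟩
      · obtain ⟨i, h1, h2⟩ := phi_surj hn γ γ'
        obtain ⟨g, h3, h4⟩ := phi_surj hn (β - cc n i) (β' - cc n' i)
        refine ⟨.aff g i, ?_, ?_⟩
        · simp only [inc_aff_net]
          exact ⟨by linarith, h1⟩
        · simp only [inc_aff_net]
          exact ⟨by linarith, h2⟩
    | tr w h => exact nettr n β γ w h
  | tr w h =>
    cases m with
    | W => exact ⟨.far w, by simp, by simp⟩
    | net n β γ =>
      obtain ⟨p, h1, h2⟩ := nettr n β γ w h
      exact ⟨p, h2, h1⟩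
    | tr w' h' =>
      by_cases hw : w = w'
      · exact ⟨.far w, by simp, by simp [hw]⟩
      · obtain ⟨i, hi⟩ := (H.A w w' hw).2 (h' - h)
        simp only at hi
        refine ⟨.aff (h + k w i) i, by simp, ?_⟩
        simp only [inc_aff_tr]
        have : h' = h + (k w i - k w' i) := by rw [hi]; abel
        rw [this]; abel

/-- the points of the Baer subplane -/
def SP : Set Pt := {p | (∃ g, p = .aff g 0) ∨ ∃ n, p = .inf n}

/-- the lines of the Baer subplane -/
def SL : Set Ln := {l | l = .W ∨ ∃ n β, l = .net n β 0}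

lemma aff_mem (g : ℚ × ℚ) : Pt.aff g 0 ∈ SP := Or.inl ⟨g, rfl⟩
lemma inf_mem (n : Option ℚ) : Pt.inf n ∈ SP := Or.inr ⟨n, rfl⟩
lemma W_mem : Ln.W ∈ SL := Or.inl rfl
lemma net_mem (n : Option ℚ) (β : ℚ) : Ln.net n β 0 ∈ SL := Or.inr ⟨n, β, rfl⟩

lemma exJoin_sub {p q : Pt} (hp : p ∈ SP) (hq : q ∈ SP) :
    ∃ l ∈ SL, Inc k p l ∧ Inc k q l := by
  rcases hp with ⟨g, rfl⟩ | ⟨n, rfl⟩
  · rcases hq with ⟨g', rfl⟩ | ⟨n', rfl⟩
    · refine ⟨_, net_mem (dir (g - g')) (phi (dir (g - g')) g), ?_, ?_⟩
      · simp
      · have := phi_dir (g - g')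
        rw [phi_sub] at this
        simp
        linarith
    · exact ⟨_, net_mem n' (phi n' g), by simp, by simp⟩
  · rcases hq with ⟨g', rfl⟩ | ⟨n', rfl⟩
    · exact ⟨_, net_mem n (phi n g'), by simp, by simp⟩
    · exact ⟨_, W_mem, by simp, by simp⟩

lemma exMeet_sub {l m : Ln} (hl : l ∈ SL) (hm : m ∈ SL) :
    ∃ p ∈ SP, Inc k p l ∧ Inc k p m := by
  rcases hl with rfl | ⟨n, β, rfl⟩
  · rcases hm with rfl | ⟨n', β', rfl⟩
    · exact ⟨_, inf_mem none, by simp, by simp⟩
    · exact ⟨_, inf_mem n', by simp, by simp⟩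
  · rcases hm with rfl | ⟨n', β', rfl⟩
    · exact ⟨_, inf_mem n, by simp, by simp⟩
    · by_cases hn : n = n'
      · exact ⟨_, inf_mem n, by simp, by simp [hn]⟩
      · obtain ⟨g, h1, h2⟩ := phi_surj hn β β'
        exact ⟨_, aff_mem g, by simp [h1], by simp [h2]⟩

/-- the four points of the quadrangle are in general position -/
lemma quad : IsQuadrangle (Inc k) (.aff (0, 0) 0) (.aff (1, 1) 0) (.inf (some 0)) (.inf none) := by
  refine ⟨?_, ?_, ?_, ?_⟩
  · rintro (_ | ⟨n, β, γ⟩ | ⟨w, h⟩) ⟨h1, h2, h3⟩
    · simp at h1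
    · simp at h3
      subst h3
      simp at h1 h2
      linarith [h1.1, h2.1]
    · simp at h3
  · rintro (_ | ⟨n, β, γ⟩ | ⟨w, h⟩) ⟨h1, h2, h3⟩
    · simp at h1
    · simp at h3
      subst h3
      simp at h1 h2
      linarith [h1.1, h2.1]
    · simp at h3
  · rintro (_ | ⟨n, β, γ⟩ | ⟨w, h⟩) ⟨h1, h2, h3⟩
    · simp at h1
    · simp at h2 h3
      rw [← h2] at h3
      exact absurd h3 (by simp)
    · simp at h3
  · rintro (_ | ⟨n, β, γ⟩ | ⟨w, h⟩) ⟨h1, h2, h3⟩
    · simp at h1
    · simp at h2 h3
      rw [← h2] at h3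
      exact absurd h3 (by simp)
    · simp at h3

lemma plane (H : Gen k) : IsProjectivePlane (Inc k) where
  join := by
    intro p q hpq
    obtain ⟨l, h1, h2⟩ := exJoin H hpq
    exact ⟨l, ⟨h1, h2⟩, fun m hm => uniq H hpq hm.1 hm.2 h1 h2⟩
  meet := by
    intro l m hlm
    obtain ⟨p, h1, h2⟩ := exMeet H hlm
    refine ⟨p, ⟨h1, h2⟩, fun q hq => ?_⟩
    by_contra hpq
    exact hlm (uniq H hpq hq.1 h1 hq.2 h2)
  quadrangle := ⟨_, _, _, _, quad⟩

lemma subplane (H : Gen k) : IsProjectivePlane (restrict (Inc k) SP SL) where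
  join := by
    intro p q hpq
    obtain ⟨l, hl, h1, h2⟩ := exJoin_sub (k := k) p.2 q.2
    refine ⟨⟨l, hl⟩, ⟨h1, h2⟩, fun m hm => Subtype.ext ?_⟩
    exact uniq H (fun h => hpq (Subtype.ext h)) hm.1 hm.2 h1 h2
  meet := by
    intro l m hlm
    obtain ⟨p, hp, h1, h2⟩ := exMeet_sub (k := k) l.2 m.2
    refine ⟨⟨p, hp⟩, ⟨h1, h2⟩, fun q hq => ?_⟩
    by_contra hpq
    exact hlm (Subtype.ext (uniq H (fun h => hpq (Subtype.ext h)) hq.1 h1 hq.2 h2))
  quadrangle := by
    refine ⟨⟨_, aff_mem (0, 0)⟩, ⟨_, aff_mem (1, 1)⟩, ⟨_, inf_mem (some 0)⟩, ⟨_, inf_mem none⟩, ?_⟩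
    obtain ⟨h1, h2, h3, h4⟩ := quad (k := k)
    exact ⟨fun l => h1 l.1, fun l => h2 l.1, fun l => h3 l.1, fun l => h4 l.1⟩

lemma baer (H : Gen k) : IsBaerSubplane (Inc k) SP SL where
  plane := subplane H
  baer_point := by
    intro p
    cases p with
    | inf n => exact ⟨_, W_mem, by simp⟩
    | far w => exact ⟨_, W_mem, by simp⟩
    | aff g i => exact ⟨_, net_mem (dir i) (phi (dir i) g + cc (dir i) i), by simp [phi_dir]⟩
  baer_line := by
    intro l
    cases l with
    | W => exact ⟨_, inf_mem none, by simp⟩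
    | net n β γ => exact ⟨_, inf_mem n, by simp⟩
    | tr w h => exact ⟨_, aff_mem h, by simp [H.zero]⟩

/-- translations on points -/
def tp (a : ℚ × ℚ) : Pt → Pt
  | .aff g i => .aff (g + a) i
  | .inf n => .inf n
  | .far w => .far w

/-- translations on lines -/
def tl (a : ℚ × ℚ) : Ln → Ln
  | .W => .W
  | .net n β γ => .net n (β + phi n a) γ
  | .tr w h => .tr w (h + a)

/-- translations as permutations of the points -/
def tpE (a : ℚ × ℚ) : Pt ≃ Pt where
  toFun := tp a
  invFun := tp (-a)
  left_inv := by rintro (⟨g, i⟩ | n | w) <;> simp [tp]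
  right_inv := by rintro (⟨g, i⟩ | n | w) <;> simp [tp]

/-- translations as permutations of the lines -/
def tlE (a : ℚ × ℚ) : Ln ≃ Ln where
  toFun := tl a
  invFun := tl (-a)
  left_inv := by rintro (_ | ⟨n, β, γ⟩ | ⟨w, h⟩) <;> simp [tl, phi_neg]
  right_inv := by rintro (_ | ⟨n, β, γ⟩ | ⟨w, h⟩) <;> simp [tl, phi_neg]

lemma tr_inc (a : ℚ × ℚ) (p : Pt) (l : Ln) : Inc k (tp a p) (tl a l) ↔ Inc k p l := by
  rcases p with ⟨g, i⟩ | n | w <;> rcases l with _ | ⟨m, β, γ⟩ | ⟨w', h⟩ <;>
    simp only [tp, tl, inc_aff_net, inc_aff_tr, inc_aff_W, inc_inf_W, inc_inf_net, inc_inf_tr,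
      inc_far_W, inc_far_net, inc_far_tr]
  · rw [phi_add]
    constructor
    · rintro ⟨h1, h2⟩; exact ⟨by linarith, h2⟩
    · rintro ⟨h1, h2⟩; exact ⟨by linarith, h2⟩
  · constructor
    · intro h1
      have : g + a = (h + k w' i) + a := by rw [h1]; abel
      exact add_right_cancel this
    · intro h1
      rw [h1]; abel

lemma tr_translation (a : ℚ × ℚ) : IsTranslation (Inc k) .W (tpE a) (tlE a) where
  collineation := tr_inc a
  axis := by
    rintro (⟨g, i⟩ | n | w) h
    · simp at h
    · rfl
    · rfl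
  center := by
    refine ⟨.inf (dir a), by simp, ?_⟩
    rintro (_ | ⟨n, β, γ⟩ | ⟨w, h⟩) hl
    · rfl
    · simp at hl
      subst hl
      change Ln.net (dir a) (β + phi (dir a) a) γ = Ln.net (dir a) β γ
      rw [phi_dir, add_zero]
    · simp at hl

lemma tp_mem (a : ℚ × ℚ) (p : Pt) : p ∈ SP ↔ tpE a p ∈ SP := by
  rcases p with ⟨g, i⟩ | n | w
  · constructor
    · rintro (⟨g', hg⟩ | ⟨n, hn⟩)
      · simp only [Pt.aff.injEq] at hg
        exact Or.inl ⟨g + a, by rw [hg.2]; rfl⟩
      · simp at hn
    · rintro (⟨g', hg⟩ | ⟨n, hn⟩)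
      · have : Pt.aff (g + a) i = Pt.aff g' 0 := hg
        simp only [Pt.aff.injEq] at this
        exact Or.inl ⟨g, by rw [this.2]⟩
      · have : Pt.aff (g + a) i = Pt.inf n := hn
        simp at this
  · exact ⟨fun _ => inf_mem n, fun _ => inf_mem n⟩
  · constructor
    · rintro (⟨g', hg⟩ | ⟨n, hn⟩)
      · simp at hg
      · simp at hn
    · rintro (⟨g', hg⟩ | ⟨n, hn⟩)
      · have : Pt.far w = Pt.aff g' 0 := hg
        simp at this
      · have : Pt.far w = Pt.inf n := hn
        simp at this

lemma tl_mem (a : ℚ × ℚ) (l : Ln) : l ∈ SL ↔ tlE a l ∈ SL := by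
  rcases l with _ | ⟨n, β, γ⟩ | ⟨w, h⟩ <;> simp [SL, tlE, tl]

/-- translations of the subplane, on points -/
def tpS (a : ℚ × ℚ) : SP ≃ SP := (tpE a).subtypeEquiv (tp_mem a)

/-- translations of the subplane, on lines -/
def tlS (a : ℚ × ℚ) : SL ≃ SL := (tlE a).subtypeEquiv (tl_mem a)

lemma sub_translation (a : ℚ × ℚ) :
    IsTranslation (restrict (Inc k) SP SL) ⟨.W, W_mem⟩ (tpS a) (tlS a) where
  collineation := fun p l => tr_inc a p.1 l.1
  axis := fun p hp => Subtype.ext ((tr_translation (k := k) a).axis p.1 hp)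
  center := by
    refine ⟨⟨.inf (dir a), inf_mem _⟩, by simp [restrict], ?_⟩
    rintro ⟨l, hl⟩ h
    apply Subtype.ext
    change tl a l = l
    rcases hl with rfl | ⟨n, β, rfl⟩
    · rfl
    · have hd : dir a = n := h
      subst hd
      simp [tl, phi_dir]

lemma subplane_translation : IsTranslationPlane (restrict (Inc k) SP SL) ⟨.W, W_mem⟩ := by
  rintro ⟨p, hp⟩ ⟨q, hq⟩ h1 h2
  rcases hp with ⟨g, rfl⟩ | ⟨n, rfl⟩
  · rcases hq with ⟨g', rfl⟩ | ⟨n, rfl⟩
    · refine ⟨tpS (g' - g), tlS (g' - g), sub_translation _, Subtype.ext ?_⟩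
      change Pt.aff (g + (g' - g)) 0 = Pt.aff g' 0
      rw [add_sub_cancel]
    · exact absurd (by simp [restrict]) h2
  · exact absurd (by simp [restrict]) h1

/-- Every translation of the subplane is induced by a translation of the plane. -/
lemma induced (H : Gen k) (α : SP ≃ SP) (β : SL ≃ SL)
    (hT : IsTranslation (restrict (Inc k) SP SL) ⟨.W, W_mem⟩ α β) :
    ∃ α' β', IsTranslation (Inc k) .W α' β' ∧ (∀ p : SP, α' p = α p) ∧
      (∀ l : SL, β' l = β l) := by
  -- infinite points are fixed
  have hinf : ∀ n, (α ⟨.inf n, inf_mem n⟩ : Pt) = .inf n := by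
    intro n
    rw [hT.axis ⟨.inf n, inf_mem n⟩ (by simp [restrict])]
  -- the line at infinity is fixed
  have hinc : ∀ (p : SP) (l : SL), Inc k (α p).1 (β l).1 ↔ Inc k p.1 l.1 := hT.collineation
  have hW : (β ⟨.W, W_mem⟩ : Ln) = .W := by
    have h1 := (hinc ⟨.inf none, inf_mem none⟩ ⟨.W, W_mem⟩).2 (by simp)
    have h2 := (hinc ⟨.inf (some 0), inf_mem _⟩ ⟨.W, W_mem⟩).2 (by simp)
    rw [hinf] at h1 h2
    exact uniq H (p := .inf none) (q := .inf (some 0)) (by simp) h1 h2 (by simp) (by simp)
  -- affine points are mapped to affine points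
  have haff : ∀ g, ∃ g', (α ⟨.aff g 0, aff_mem g⟩ : Pt) = .aff g' 0 := by
    intro g
    rcases (α ⟨.aff g 0, aff_mem g⟩).2 with h | ⟨n, hn⟩
    · exact h
    · exfalso
      have h1 := hinc ⟨.aff g 0, aff_mem g⟩ ⟨.W, W_mem⟩
      rw [hW, hn] at h1
      simp at h1
  choose f hf using haff
  -- directions are preserved
  have hdir : ∀ g g' n, phi n g = phi n g' → phi n (f g) = phi n (f g') := by
    intro g g' n hgg
    have h0 := (hinc ⟨.inf n, inf_mem n⟩ ⟨.net n (phi n g) 0, net_mem _ _⟩).2 (by simp)
    have h1 := (hinc ⟨.aff g 0, aff_mem g⟩ ⟨.net n (phi n g) 0, net_mem _ _⟩).2 (by simp)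
    have h2 := (hinc ⟨.aff g' 0, aff_mem g'⟩ ⟨.net n (phi n g) 0, net_mem _ _⟩).2
      (by simp [hgg])
    rw [hinf] at h0
    rw [hf] at h1 h2
    rcases (β ⟨.net n (phi n g) 0, net_mem _ _⟩).2 with h3 | ⟨m, β', h3⟩
    · rw [h3] at h1
      simp at h1
    · rw [h3] at h0 h1 h2
      simp at h0 h1 h2
      subst h0
      rw [h1, h2]
  -- the center
  obtain ⟨⟨c, hc⟩, hcW, hcl⟩ := hT.center
  obtain ⟨n0, rfl⟩ : ∃ n0, c = .inf n0 := by
    rcases hc with ⟨g, rfl⟩ | h
    · exact absurd hcW (by simp [restrict])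
    · exact h
  have hcen : ∀ g, phi n0 (f g) = phi n0 g := by
    intro g
    have h1 := (hinc ⟨.aff g 0, aff_mem g⟩ ⟨.net n0 (phi n0 g) 0, net_mem _ _⟩).2 (by simp)
    rw [hcl ⟨.net n0 (phi n0 g) 0, net_mem _ _⟩ (by simp [restrict]), hf] at h1
    simp at h1
    exact h1
  -- differences
  have hdiff : ∀ g g', phi n0 g ≠ phi n0 g' → f g - f g' = g - g' := by
    intro g g' hne
    have hn : n0 ≠ dir (g - g') := by
      intro h
      have := phi_dir (g - g')
      rw [← h, phi_sub] at this
      exact hne (by linarith)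
    apply phi_inj' hn
    · rw [phi_sub, phi_sub, hcen, hcen]
    · have h1 := phi_dir (g - g')
      rw [h1, phi_sub, hdir g g' _ (by rw [phi_sub] at h1; linarith), sub_self]
  have hall : ∀ g, f g = g + f 0 := by
    intro g
    obtain ⟨q, hq1, hq2⟩ : ∃ q, phi n0 g ≠ phi n0 q ∧ phi n0 q ≠ phi n0 0 := by
      obtain ⟨q, hq, -⟩ := phi_surj (n := n0) (m := if n0 = none then some 0 else none)
        (by cases n0 <;> simp) (|phi n0 g| + 1) 0
      refine ⟨q, ?_, ?_⟩
      · rw [hq]
        have := le_abs_self (phi n0 g)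
        intro h
        linarith
      · rw [hq, phi_zero]
        have := abs_nonneg (phi n0 g)
        intro h
        linarith
    have h1 := hdiff g q hq1
    have h2 := hdiff q 0 hq2
    have : f g = (f g - f q) + (f q - f 0) + f 0 := by abel
    rw [this, h1, h2]; abel
  refine ⟨tpE (f 0), tlE (f 0), tr_translation _, ?_, ?_⟩
  · rintro ⟨p, hp⟩
    rcases hp with ⟨g, rfl⟩ | ⟨n, rfl⟩
    · rw [hf, hall g]
      rfl
    · rw [hinf]
      rfl
  · rintro ⟨l, hl⟩
    rcases hl with rfl | ⟨n, b, rfl⟩
    · rw [hW]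
      rfl
    · obtain ⟨g, hg, -⟩ := phi_surj (n := n) (m := if n = none then some 0 else none)
        (by cases n <;> simp) b 0
      have h0 := (hinc ⟨.inf n, inf_mem n⟩ ⟨.net n b 0, net_mem _ _⟩).2 (by simp)
      have h1 := (hinc ⟨.aff g 0, aff_mem g⟩ ⟨.net n b 0, net_mem _ _⟩).2 (by simp [hg])
      rw [hinf] at h0
      rw [hf, hall g] at h1
      refine (uniq H (p := .inf n) (q := .aff (g + f 0) 0) (by simp) h0 h1 (by rfl) ?_).symm
      change Inc k _ (Ln.net n (b + phi n (f 0)) 0)
      simp [phi_add, hg]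

lemma semi (H : Gen k) : IsSemiTranslationPlane (Inc k) .W SP SL W_mem where
  baer := baer H
  translation := subplane_translation
  induced := induced H

instance : Nonempty Pt := ⟨.inf none⟩
instance : Nonempty Ln := ⟨.W⟩

lemma join_eq (H : Gen k) {p q : Pt} (hpq : p ≠ q) {l : Ln} (h1 : Inc k p l) (h2 : Inc k q l) :
    joinLine (Inc k) p q = l := by
  have h := Classical.epsilon_spec (p := fun l => Inc k p l ∧ Inc k q l) ⟨l, h1, h2⟩
  exact uniq H hpq h.1 h.2 h1 h2

lemma meet_eq (H : Gen k) {l m : Ln} (hlm : l ≠ m) {p : Pt} (h1 : Inc k p l) (h2 : Inc k p m) :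
    meetPoint (Inc k) l m = p := by
  have h := Classical.epsilon_spec (p := fun p => Inc k p l ∧ Inc k p m) ⟨p, h1, h2⟩
  by_contra hne
  exact hlm (uniq H hne h.1 h1 h.2 h2)

section compute

variable (H : Gen k)

include H in
/-- the vertical line through a point -/
lemma join_v (g i : ℚ × ℚ) : joinLine (Inc k) (.aff g i) (.inf none) = .net none g.1 i.1 :=
  join_eq H (by simp) (by simp [cc]) (by simp)

include H in
/-- the horizontal line through a point -/
lemma join_u (g i : ℚ × ℚ) :
    joinLine (Inc k) (.aff g i) (.inf (some 0)) = .net (some 0) g.2 i.2 :=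
  join_eq H (by simp) (by simp [cc]) (by simp)

include H in
/-- the horizontal line through a point -/
lemma join_u' (g i : ℚ × ℚ) :
    joinLine (Inc k) (.inf (some 0)) (.aff g i) = .net (some 0) g.2 i.2 :=
  join_eq H (by simp) (by simp) (by simp [cc])

include H in
/-- the point with given coordinates -/
lemma pt_eq (g i g' i' : ℚ × ℚ) :
    pt (Inc k) (.inf (some 0)) (.inf none) (.aff g i) (.aff g' i') =
      .aff (g.1, g'.2) (i.1, i'.2) := by
  unfold pt
  rw [join_v H, join_u H]
  exact meet_eq H (by simp) (by simp [cc]) (by simp [cc])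

include H in
/-- the line `oe` -/
lemma join_oe : joinLine (Inc k) (.aff (0, 0) 0) (.aff (1, 1) 0) = .net (some 1) 0 0 :=
  join_eq H (by simp) (by simp) (by simp)

include H in
/-- rational slopes -/
lemma slope_eq (s : ℚ) : slopePt (Inc k) .W (.aff (0, 0) 0) (.aff (1, 1) 0) (.inf (some 0))
    (.inf none) (.aff (s, s) 0) = .inf (some s) := by
  unfold slopePt
  rw [pt_eq H]
  have : joinLine (Inc k) (.aff (0, 0) 0) (.aff (((1, 1) : ℚ × ℚ).1, ((s, s) : ℚ × ℚ).2)
      ((0 : ℚ × ℚ).1, (0 : ℚ × ℚ).2)) = .net (some s) 0 0 := by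
    refine join_eq H (by simp) (by simp) ?_
    have : (((0 : ℚ × ℚ).1, (0 : ℚ × ℚ).2) : ℚ × ℚ) = 0 := rfl
    rw [this]
    simp
  rw [this]
  exact meet_eq H (by simp) (by simp) (by simp)

include H in
/-- The ternary operation with a rational slope. -/
lemma tern_eq (s : ℚ) (x1 x2 y1 y2 z : ℚ)
    (hz : z = s * x1 + y1 + cc (some s) (0, y2) - cc (some s) (x2, s * x2 + y2)) :
    tern (Inc k) .W (.aff (0, 0) 0) (.aff (1, 1) 0) (.inf (some 0))
    (.inf none) (.aff (x1, x1) (x2, x2)) (.aff (s, s) 0) (.aff (y1, y1) (y2, y2)) =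
      .aff (z, z) (s * x2 + y2, s * x2 + y2) := by
  unfold tern
  rw [slope_eq H, pt_eq H, join_v H, join_oe H]
  have h1 : joinLine (Inc k) (.inf (some s)) (.aff (((0, 0) : ℚ × ℚ).1, ((y1, y1) : ℚ × ℚ).2)
      ((0 : ℚ × ℚ).1, ((y2, y2) : ℚ × ℚ).2)) = .net (some s) (y1 + cc (some s) (0, y2)) y2 := by
    refine join_eq H (by simp) (by simp) ?_
    have : (((0 : ℚ × ℚ).1, ((y2, y2) : ℚ × ℚ).2) : ℚ × ℚ) = (0, y2) := rfl
    rw [this]
    simp
  rw [h1]
  have h2 : meetPoint (Inc k) (.net none ((x1, x1) : ℚ × ℚ).1 ((x2, x2) : ℚ × ℚ).1)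
      (.net (some s) (y1 + cc (some s) (0, y2)) y2) = .aff (x1, z) (x2, s * x2 + y2) := by
    refine meet_eq H (by simp) (by simp [cc]) ?_
    simp only [inc_aff_net, phi_some]
    constructor
    · rw [hz]; ring
    · ring
  rw [h2, join_u' H]
  refine meet_eq H (by simp) ?_ (by simp [cc])
  simp [cc]

end compute

/-- **Answer.** It is not true that all ternary fields of all semi-translation planes, with respect
to quadrangles `o, e, u, v` of the Baer subplane with `u` and `v` on the line at infinity, are
linear over the subplane. -/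
theorem result : ¬ (∀ (P L : Type) [Nonempty P] [Nonempty L] (I : P → L → Prop) (W : L)
    (SP : Set P) (SL : Set L) (hW : W ∈ SL), IsProjectivePlane I →
    IsSemiTranslationPlane I W SP SL hW → ∀ o e u v, o ∈ SP → e ∈ SP → u ∈ SP → v ∈ SP →
    IsQuadrangle I o e u v → I u W → I v W → QLinear I W o e u v SP) := by
  intro hall
  obtain ⟨k, h1, h2, h3, h4⟩ := exists_generic
  have H : Gen k := ⟨h1, h2, h3, h4⟩
  have hQ := hall Pt Ln (Inc k) .W SP SL W_mem (plane H) (semi H) (.aff (0, 0) 0) (.aff (1, 1) 0)
    (.inf (some 0)) (.inf none) (aff_mem _) (aff_mem _) (inf_mem _) (inf_mem _) quad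
    (by simp) (by simp)
  have hd : ∀ a b, Dom (Inc k) .W (.aff (0, 0) 0) (.aff (1, 1) 0) (.aff (a, a) (b, b)) := by
    intro a b
    unfold Dom
    rw [join_oe H]
    simp [cc]
  have h := hQ (.aff (0, 0) (1, 1)) (.aff (0, 0) (1, 1)) (.aff (2, 2) 0) (hd _ _) (hd _ _)
    (hd 2 0) (aff_mem _)
  unfold add mul at h
  rw [tern_eq H 2 0 1 0 1 (-1) (by norm_num [cc])] at h
  have h5 := tern_eq H 2 0 1 0 0 0 (by norm_num [cc])
  have h6 : (((0 : ℚ), (0 : ℚ)) : ℚ × ℚ) = 0 := rfl
  rw [h6] at h h5
  rw [h5] at h
  have h7 := tern_eq H 1 0 (2 * 1 + 0) 0 1 0 (by norm_num [cc])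
  rw [h6] at h7
  rw [h7] at h
  have h8 := congrArg (fun p : Pt => match p with | .aff g _ => g.1 | _ => 0) h
  norm_num at h8

end Pool.Agent.Results.MP_da03c4_co.NonLinear
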